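import Mathlib
import Pool.Agent.X48.WienerDense

/-!
The Wiener roots of trees are dense in the complex plane.
-/

namespace Pool.Agent.Results.MP_dc0d33_co.TreesDense

open Pool.Agent.X48.Wiener

/-- the set of all Wiener roots of all trees with at least two vertices -/
def treeRoots : Set ℂ :=
  {z | ∃ (V : Type) (_ : Fintype V) (G : SimpleGraph V), G.IsTree ∧ 2 ≤ Fintype.card V ∧ W G z = 0}

/-- a power with nonpositive real part -/
theorem exists_pow (z : ℂ) (hz : z.im ≠ 0) : ∃ m : ℕ, 1 ≤ m ∧ (z ^ m).re ≤ 0 := by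
  have harg0 : z.arg ≠ 0 := by
    intro h
    rw [Complex.arg_eq_zero_iff] at h
    exact hz h.2
  have hpi := Real.pi_pos
  set θ := |z.arg| with hθ
  have hθ0 : 0 < θ := abs_pos.2 harg0
  have hθpi : θ ≤ Real.pi := Complex.abs_arg_le_pi z
  set m := ⌈Real.pi / 2 / θ⌉₊ with hm
  have hm1 : Real.pi / 2 / θ ≤ m := Nat.le_ceil _
  have hm2 : (m : ℝ) < Real.pi / 2 / θ + 1 := Nat.ceil_lt_add_one (by positivity)
  have h1 : Real.pi / 2 ≤ m * θ := by
    rwa [div_le_iff₀ hθ0] at hm1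
  have h2 : m * θ ≤ Real.pi + Real.pi / 2 := by
    have : (m : ℝ) * θ < (Real.pi / 2 / θ + 1) * θ := mul_lt_mul_of_pos_right hm2 hθ0
    rw [add_mul, div_mul_cancel₀ _ hθ0.ne', one_mul] at this
    linarith
  refine ⟨m, ?_, ?_⟩
  · by_contra hlt
    have : m = 0 := by omega
    rw [this] at h1
    simp at h1
    linarith
  · have hpolar : z = (‖z‖ : ℂ) * Complex.exp (z.arg * Complex.I) := (Complex.norm_mul_exp_arg_mul_I z).symm
    have h3 : z ^ m = ((‖z‖ ^ m : ℝ) : ℂ) * Complex.exp (((m * z.arg : ℝ) : ℂ) * Complex.I) := by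
      conv_lhs => rw [hpolar]
      rw [mul_pow, ← Complex.exp_nat_mul]
      push_cast
      congr 2
      ring
    rw [h3, Complex.re_ofReal_mul, Complex.exp_ofReal_mul_I_re]
    have h4 : Real.cos (m * z.arg) = Real.cos (m * θ) := by
      rw [hθ]
      rcases abs_cases z.arg with ⟨h, -⟩ | ⟨h, -⟩
      · rw [h]
      · rw [h, mul_neg, Real.cos_neg]
    rw [h4]
    exact mul_nonpos_of_nonneg_of_nonpos (by positivity)
      (Real.cos_nonpos_of_pi_div_two_le_of_le h1 h2)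

theorem near (z : ℂ) (hz : z.im ≠ 0) (ε : ℝ) (hε : 0 < ε) : ∃ w ∈ treeRoots, ‖z - w‖ < ε := by
  obtain ⟨m, hm1, hm⟩ := exists_pow z hz
  set w := z ^ m with hw
  set b : ℝ := -w.re with hb
  set q : ℝ := Complex.normSq w with hq
  have hb0 : 0 ≤ b := by rw [hb]; linarith
  have hq0 : 0 ≤ q := Complex.normSq_nonneg _
  have hquad : w ^ 2 + 2 * (b : ℂ) * w + (q : ℂ) = 0 := by
    apply Complex.ext
    · simp only [hb, hq, Complex.normSq_apply, sq, Complex.add_re, Complex.mul_re, Complex.mul_im,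
        Complex.ofReal_re, Complex.ofReal_im, Complex.zero_re, Complex.re_ofNat, Complex.im_ofNat]
      ring
    · simp only [hb, hq, Complex.normSq_apply, sq, Complex.add_im, Complex.mul_re, Complex.mul_im,
        Complex.ofReal_re, Complex.ofReal_im, Complex.zero_im, Complex.re_ofNat, Complex.im_ofNat]
      ring
  obtain ⟨K, hK⟩ := exists_nat_ge (max 1 (max (2 * b) q))
  have hK1 : (1 : ℝ) ≤ K := le_trans (le_max_left _ _) hK
  have hKb : 2 * b ≤ K := le_trans (le_trans (le_max_left _ _) (le_max_right _ _)) hK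
  have hKq : q ≤ K := le_trans (le_trans (le_max_right _ _) (le_max_right _ _)) hK
  let D := 2 * (2 * m + 2)
  let l : Fin 3 → ℕ := ![2 * m, m, 0]
  let γ : ℝ := ‖z‖ ^ 2 * (‖w‖ + 1)
  let α : ℝ := 3 * m + 4
  let β : ℝ := α * (α + 3 * K) + 3 * K * (α + K)
  let Γ : ℝ := γ ^ 2 + 2 * (max 1 ‖z‖) ^ D * β + (α + 3 * K)
  obtain ⟨N, hN⟩ := exists_nat_gt (max 2 (1 + Γ / ε ^ D))
  have hN2 : (2 : ℝ) < N := lt_of_le_of_lt (le_max_left _ _) hN
  have hN3 : 1 + Γ / ε ^ D < N := lt_of_le_of_lt (le_max_right _ _) hN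
  have hN2' : 2 < N := by exact_mod_cast hN2
  let c : Fin 3 → ℕ := ![N, ⌊2 * b * N⌋₊, ⌊q * N⌋₊]
  have hD : ∀ τ, 2 * (l τ + 2) ≤ D := by
    intro τ
    fin_cases τ
    · change 2 * (2 * m + 2) ≤ 2 * (2 * m + 2); exact le_rfl
    · change 2 * (m + 2) ≤ 2 * (2 * m + 2); omega
    · change 2 * (0 + 2) ≤ 2 * (2 * m + 2); omega
  have hfl : ∀ x : ℝ, 0 ≤ x → x ≤ K → ⌊x * N⌋₊ ≤ K * N := by
    intro x hx hxK
    have h1 : (⌊x * N⌋₊ : ℝ) ≤ x * N := Nat.floor_le (by positivity)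
    have h2 : x * N ≤ K * N := mul_le_mul_of_nonneg_right hxK (by positivity)
    have h3 : (⌊x * N⌋₊ : ℝ) ≤ ((K * N : ℕ) : ℝ) := by push_cast; linarith
    exact_mod_cast h3
  have hC : ∀ τ, c τ ≤ K * N := by
    intro τ
    have hK1' : 1 ≤ K := by exact_mod_cast hK1
    fin_cases τ
    · change N ≤ K * N
      exact Nat.le_mul_of_pos_left N hK1'
    · exact hfl (2 * b) (by positivity) hKb
    · exact hfl q hq0 hKq
  have herr := error (N := N) (l := l) (c := c) z D (K * N) hD hC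
  have hlead := lead (N := N) (l := l) (c := c) D rfl
  have hdeg := natDegree_le (N := N) (l := l) (c := c) D hD
  -- the sum of g
  have hsum : ‖∑ u : VV N l c, g z u‖ ≤ N * γ := by
    rw [sum_g]
    have h0 : ((c 0 : ℂ) * z ^ (l 0 + 2) + (c 1 : ℂ) * z ^ (l 1 + 2) + (c 2 : ℂ) * z ^ (l 2 + 2)) =
        z ^ 2 * (((⌊2 * b * N⌋₊ : ℂ) - 2 * b * N) * w + ((⌊q * N⌋₊ : ℂ) - q * N)) := by
      change ((N : ℂ) * z ^ (2 * m + 2) + (⌊2 * b * N⌋₊ : ℂ) * z ^ (m + 2) + (⌊q * N⌋₊ : ℂ) * z ^ (0 + 2)) = _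
      have e1 : z ^ (2 * m + 2) = z ^ 2 * w ^ 2 := by rw [hw]; ring
      have e2 : z ^ (m + 2) = z ^ 2 * w := by rw [hw]; ring
      rw [e1, e2]
      linear_combination (N : ℂ) * z ^ 2 * hquad
    rw [h0, norm_mul, Complex.norm_natCast, norm_mul, norm_pow]
    apply mul_le_mul_of_nonneg_left _ (by positivity)
    apply mul_le_mul_of_nonneg_left _ (by positivity)
    have hfl2 : ∀ x : ℝ, 0 ≤ x → ‖((⌊x * N⌋₊ : ℂ) - x * N)‖ ≤ 1 := by
      intro x hx
      have h1 : (⌊x * N⌋₊ : ℝ) ≤ x * N := Nat.floor_le (by positivity)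
      have h2 : x * N < ⌊x * N⌋₊ + 1 := Nat.lt_floor_add_one _
      have h3 : ((⌊x * N⌋₊ : ℂ) - x * N) = (((⌊x * N⌋₊ : ℝ) - x * N : ℝ) : ℂ) := by push_cast; ring
      rw [h3, Complex.norm_real, Real.norm_eq_abs, abs_le]
      constructor <;> linarith
    have e3 : ((⌊2 * b * N⌋₊ : ℂ) - 2 * b * N) = ((⌊(2 * b) * N⌋₊ : ℂ) - ((2 * b : ℝ) : ℂ) * N) := by
      push_cast; ring
    calc ‖((⌊2 * b * N⌋₊ : ℂ) - 2 * b * N) * w + ((⌊q * N⌋₊ : ℂ) - q * N)‖
        ≤ ‖((⌊2 * b * N⌋₊ : ℂ) - 2 * b * N) * w‖ + ‖((⌊q * N⌋₊ : ℂ) - q * N)‖ := norm_add_le _ _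
      _ ≤ 1 * ‖w‖ + 1 := by
          rw [norm_mul]
          apply add_le_add
          · apply mul_le_mul_of_nonneg_right _ (norm_nonneg _)
            rw [e3]
            exact hfl2 (2 * b) (by positivity)
          · exact hfl2 q hq0
      _ = ‖w‖ + 1 := by ring
  -- sizes
  have hNpos : (0 : ℝ) < N := by linarith
  have hA : (Fintype.card (AV N l) : ℝ) ≤ α * N := by
    have h1 : Fintype.card (AV N l) = 1 + (N * (2 * m + 1) + N * (m + 1) + N * (0 + 1)) := by
      rw [Fintype.card_sum, Fintype.card_sigma, Fin.sum_univ_three]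
      simp only [Fintype.card_prod, Fintype.card_fin, Fintype.card_unit]
      rfl
    rw [h1]
    push_cast
    have : (1 : ℝ) ≤ N := by linarith
    simp only [α]
    nlinarith
  have hB : (Fintype.card (LeafV N c) : ℝ) ≤ 3 * K * N ^ 2 := by
    have h1 : Fintype.card (LeafV N c) = N * c 0 + N * c 1 + N * c 2 := by
      rw [Fintype.card_sigma, Fin.sum_univ_three]
      simp only [Fintype.card_prod, Fintype.card_fin]
    have h2 : N * c 0 + N * c 1 + N * c 2 ≤ N * (K * N) + N * (K * N) + N * (K * N) := by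
      apply Nat.add_le_add
      · apply Nat.add_le_add
        · exact Nat.mul_le_mul_left _ (hC 0)
        · exact Nat.mul_le_mul_left _ (hC 1)
      · exact Nat.mul_le_mul_left _ (hC 2)
    rw [h1]
    calc ((N * c 0 + N * c 1 + N * c 2 : ℕ) : ℝ) ≤ ((N * (K * N) + N * (K * N) + N * (K * N) : ℕ) : ℝ) := by
          exact_mod_cast h2
      _ = 3 * K * N ^ 2 := by push_cast; ring
  have hV : (Fintype.card (VV N l c) : ℝ) ≤ (α + 3 * K) * N ^ 2 := by
    have h1 : (Fintype.card (VV N l c) : ℝ) = Fintype.card (AV N l) + Fintype.card (LeafV N c) := by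
      rw [Fintype.card_sum]; push_cast; ring
    rw [h1]
    have hα : 0 ≤ α := by positivity
    have : α * N ≤ α * N ^ 2 := by
      apply mul_le_mul_of_nonneg_left _ hα
      nlinarith
    linarith
  have hα0 : 0 ≤ α := by positivity
  have hK0 : (0 : ℝ) ≤ K := by positivity
  have hβ0 : 0 ≤ β := by positivity
  have hbad : ((Fintype.card (AV N l) * Fintype.card (VV N l c) +
      Fintype.card (LeafV N c) * (Fintype.card (AV N l) + K * N) : ℕ) : ℝ) ≤ β * N ^ 3 := by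
    push_cast
    calc (Fintype.card (AV N l) : ℝ) * (Fintype.card (VV N l c) : ℝ) +
        (Fintype.card (LeafV N c) : ℝ) * ((Fintype.card (AV N l) : ℝ) + K * N)
        ≤ (α * N) * ((α + 3 * K) * N ^ 2) + (3 * K * N ^ 2) * (α * N + K * N) := by
          apply add_le_add
          · exact mul_le_mul hA hV (by positivity) (by positivity)
          · exact mul_le_mul hB (by linarith) (by positivity) (by positivity)
      _ = β * N ^ 3 := by simp only [β]; ring
  have hN13 : (N : ℝ) ^ 2 ≤ N ^ 3 := by nlinarith [sq_nonneg (N : ℝ)]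
  have hγ0 : 0 ≤ γ := by positivity
  have htot : ‖(Q (TT N l c)).eval z‖ ≤ Γ * N ^ 3 := by
    refine le_trans herr ?_
    have e1 : ‖∑ u : VV N l c, g z u‖ ^ 2 ≤ γ ^ 2 * N ^ 3 := by
      calc ‖∑ u : VV N l c, g z u‖ ^ 2 ≤ (N * γ) ^ 2 := pow_le_pow_left₀ (norm_nonneg _) hsum 2
        _ = γ ^ 2 * N ^ 2 := by ring
        _ ≤ γ ^ 2 * N ^ 3 := mul_le_mul_of_nonneg_left hN13 (by positivity)
    have e2 : 2 * (max 1 ‖z‖) ^ D * ((Fintype.card (AV N l) * Fintype.card (VV N l c) +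
        Fintype.card (LeafV N c) * (Fintype.card (AV N l) + K * N) : ℕ) : ℝ) ≤
        2 * (max 1 ‖z‖) ^ D * (β * N ^ 3) :=
      mul_le_mul_of_nonneg_left hbad (by positivity)
    have e3 : (Fintype.card (VV N l c) : ℝ) ≤ (α + 3 * K) * N ^ 3 :=
      le_trans hV (mul_le_mul_of_nonneg_left hN13 (by positivity))
    calc _ ≤ γ ^ 2 * N ^ 3 + 2 * (max 1 ‖z‖) ^ D * (β * N ^ 3) + (α + 3 * K) * N ^ 3 :=
          add_le_add (add_le_add e1 e2) e3
      _ = Γ * N ^ 3 := by simp only [Γ]; ring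
  have hεD : 0 < ε ^ D := by positivity
  have hlead2 : (N : ℝ) ^ 3 * (N - 1) ≤ ‖(Q (TT N l c)).coeff D‖ := by
    refine le_trans (le_of_eq ?_) hlead
    change _ = (((N * (N - 1)) * (N * N) : ℕ) : ℝ)
    rw [Nat.cast_mul, Nat.cast_mul, Nat.cast_sub (by omega)]
    push_cast
    ring
  have hfinal : ‖(Q (TT N l c)).eval z‖ < ‖(Q (TT N l c)).coeff D‖ * ε ^ D := by
    refine lt_of_le_of_lt htot ?_
    refine lt_of_lt_of_le ?_ (mul_le_mul_of_nonneg_right hlead2 hεD.le)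
    have h1 : Γ < (N - 1) * ε ^ D := by
      have h2 : Γ / ε ^ D < N - 1 := by linarith
      rwa [div_lt_iff₀ hεD] at h2
    have h3 : (0 : ℝ) < N ^ 3 := by positivity
    calc Γ * N ^ 3 < ((N - 1) * ε ^ D) * N ^ 3 := mul_lt_mul_of_pos_right h1 h3
      _ = _ := by ring
  obtain ⟨x, hx, hxz⟩ := close_root _ D hdeg z ε hε hfinal
  refine ⟨x, ⟨VV N l c, inferInstance, TT N l c, TT_tree, ?_, ?_⟩, hxz⟩
  · have h1 : 2 ≤ Fintype.card (AV N l) := by
      have h1 : Fintype.card (AV N l) = 1 + (N * (2 * m + 1) + N * (m + 1) + N * (0 + 1)) := by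
        rw [Fintype.card_sum, Fintype.card_sigma, Fin.sum_univ_three]
        simp only [Fintype.card_prod, Fintype.card_fin, Fintype.card_unit]
        rfl
      rw [h1]
      have : N ≤ N * (2 * m + 1) := Nat.le_mul_of_pos_right N (by omega)
      omega
    rw [Fintype.card_sum]
    omega
  · have h1 := two_W (TT N l c) x
    rw [hx] at h1
    have h2 : (2 : ℂ) ≠ 0 := two_ne_zero
    exact (mul_eq_zero.1 h1).resolve_left h2

theorem result : closure treeRoots = Set.univ := by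
  rw [Set.eq_univ_iff_forall]
  intro z
  rw [Metric.mem_closure_iff]
  intro ε hε
  by_cases hz : z.im = 0
  · -- move off the real line
    obtain ⟨w, hw, hzw⟩ := near (z + ((ε / 2 : ℝ) : ℂ) * Complex.I) (by
      simp only [Complex.add_im, hz, Complex.mul_im, Complex.ofReal_re, Complex.I_im,
        Complex.ofReal_im, Complex.I_re]
      have : (0 : ℝ) < ε / 2 := by positivity
      intro h
      linarith) (ε / 2) (by positivity)
    refine ⟨w, hw, ?_⟩
    rw [Complex.dist_eq]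
    calc ‖z - w‖ = ‖(z + ((ε / 2 : ℝ) : ℂ) * Complex.I - w) - ((ε / 2 : ℝ) : ℂ) * Complex.I‖ := by
          congr 1; ring
      _ ≤ ‖z + ((ε / 2 : ℝ) : ℂ) * Complex.I - w‖ + ‖((ε / 2 : ℝ) : ℂ) * Complex.I‖ := norm_sub_le _ _
      _ < ε / 2 + ε / 2 := by
          rw [norm_mul, Complex.norm_I, mul_one, Complex.norm_real, Real.norm_eq_abs,
            abs_of_pos (by positivity : (0 : ℝ) < ε / 2)]
          linarith
      _ = ε := by ring
  · obtain ⟨w, hw, hzw⟩ := near z hz ε hε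
    exact ⟨w, hw, by rw [Complex.dist_eq]; exact hzw⟩

end Pool.Agent.Results.MP_dc0d33_co.TreesDense
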